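import Pool.Agent.H.MP_d0305a_co.A

set_option autoImplicit false

namespace Pool.Agent.H.MP_9dc182_co
open Set Filter Topology MeasureTheory Pool.Agent.H.MP_d0305a_co

def lam (P Q z : ℂ) : ℝ := (Q.re - P.re) * (z.im - P.im) - (Q.im - P.im) * (z.re - P.re)

theorem tri_eq (A B C : ℂ) : tri A B C = aff A (B - A) (C - A) '' Tk 1 := by
  rw [← hull_std, AffineMap.image_convexHull, image_insert_eq, image_insert_eq, image_singleton]
  simp [aff_apply, tri]

theorem mem_tri {A B C z : ℂ} (h : 0 < lam A B C) :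
    z ∈ tri A B C ↔ 0 ≤ lam A B z ∧ 0 ≤ lam B C z ∧ 0 ≤ lam C A z := by
  rw [tri_eq]
  constructor
  · rintro ⟨⟨s, t⟩, ⟨h1, h2, h3⟩, rfl⟩
    have e1 : lam A B (aff A (B - A) (C - A) (s, t)) = t * lam A B C := by
      simp [lam, aff_apply]; ring
    have e2 : lam B C (aff A (B - A) (C - A) (s, t)) = (1 - (s + t)) * lam A B C := by
      simp [lam, aff_apply]; ring
    have e3 : lam C A (aff A (B - A) (C - A) (s, t)) = s * lam A B C := by
      simp [lam, aff_apply]; ring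
    rw [e1, e2, e3]
    exact ⟨mul_nonneg h2 h.le, mul_nonneg (sub_nonneg.2 h3) h.le, mul_nonneg h1 h.le⟩
  · rintro ⟨h1, h2, h3⟩
    refine ⟨(lam C A z / lam A B C, lam A B z / lam A B C), ⟨by positivity, by positivity, ?_⟩, ?_⟩
    · simp only
      rw [← add_div, div_le_one h]
      simp only [lam] at *; linarith
    · have := h.ne'
      apply Complex.ext <;> simp [aff_apply] <;> field_simp <;> simp only [lam] <;> ring

theorem mem_int {A B C z : ℂ} (h : 0 < lam A B C) (h1 : 0 < lam A B z) (h2 : 0 < lam B C z)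
    (h3 : 0 < lam C A z) : z ∈ interior (tri A B C) := by
  have c : ∀ P Q, Continuous (lam P Q) := fun P Q => by unfold lam; fun_prop
  refine interior_maximal (t := {z | 0 < lam A B z ∧ 0 < lam B C z ∧ 0 < lam C A z}) ?_ ?_
    ⟨h1, h2, h3⟩
  · rintro z ⟨a, b, c⟩; exact (mem_tri h).2 ⟨a.le, b.le, c.le⟩
  · exact (isOpen_lt continuous_const (c _ _)).inter ((isOpen_lt continuous_const (c _ _)).inter
      (isOpen_lt continuous_const (c _ _)))

theorem ev1 {α β : ℝ} (h : 0 < α ∨ (α = 0 ∧ 0 < β)) : ∀ᶠ ε in 𝓝[>] (0 : ℝ), 0 < α + ε * β := by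
  rcases h with h | ⟨rfl, h⟩
  · have c : Continuous fun ε : ℝ => α + ε * β := by fun_prop
    exact (c.continuousAt.eventually (lt_mem_nhds (by simpa using h))).filter_mono
      nhdsWithin_le_nhds
  · filter_upwards [self_mem_nhdsWithin] with ε hε
    have : (0 : ℝ) < ε := hε
    simpa using mul_pos this h

theorem ev2 {α β : ℝ} (h : ∃ᶠ ε in 𝓝[>] (0 : ℝ), 0 ≤ α + ε * β) (h0 : α ≠ 0 ∨ β ≠ 0) :
    0 < α ∨ (α = 0 ∧ 0 < β) := by
  by_contra hn
  have : 0 < -α ∨ (-α = 0 ∧ 0 < -β) := by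
    push Not at hn
    rcases hn.1.lt_or_eq with a | a
    · left; linarith
    · right
      refine ⟨by linarith, ?_⟩
      rcases (hn.2 a).lt_or_eq with b | b
      · linarith
      · tauto
  obtain ⟨ε, a, b⟩ := (h.and_eventually (ev1 this)).exists
  linarith

def pt (s τ t ε : ℝ) : ℂ := ⟨t, s + τ * ε⟩

theorem lam_pt (P Q : ℂ) (s τ t ε : ℝ) :
    lam P Q (pt s τ t ε) = lam P Q ⟨t, s⟩ + ε * (τ * (Q.re - P.re)) := by
  simp [lam, pt]; ring

def cnd (s τ : ℝ) (P Q : ℂ) (t : ℝ) : Prop :=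
  0 < lam P Q ⟨t, s⟩ ∨ (lam P Q ⟨t, s⟩ = 0 ∧ 0 < τ * (Q.re - P.re))
def E (s τ : ℝ) (A B C : ℂ) : Set ℝ := {t | cnd s τ A B t ∧ cnd s τ B C t ∧ cnd s τ C A t}
def ok (s : ℝ) (P Q : ℂ) (t : ℝ) : Prop := P.im = Q.im ∨ lam P Q ⟨t, s⟩ ≠ 0

theorem ae_ok (s : ℝ) (P Q : ℂ) : ∀ᵐ t, ok s P Q t := by
  by_cases h : P.im = Q.im
  · exact Eventually.of_forall fun t => Or.inl h
  · have : Q.im - P.im ≠ 0 := fun e => h (by linarith)
    filter_upwards [(countable_singleton
      (P.re + (Q.re - P.re) * (s - P.im) / (Q.im - P.im))).ae_notMem volume] with t ht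
    right
    intro e
    apply ht
    simp only [lam] at e
    rw [mem_singleton_iff]; field_simp; linarith

theorem E_ev {s τ t : ℝ} {A B C : ℂ} (h : 0 < lam A B C) (ht : t ∈ E s τ A B C) :
    ∀ᶠ ε in 𝓝[>] (0 : ℝ), pt s τ t ε ∈ interior (tri A B C) := by
  filter_upwards [ev1 ht.1, ev1 ht.2.1, ev1 ht.2.2] with ε a b c
  exact mem_int h (by rwa [lam_pt]) (by rwa [lam_pt]) (by rwa [lam_pt])

theorem cnd_of {s τ t : ℝ} {P Q : ℂ} (hτ : τ ≠ 0) (hn : P.im = Q.im → P.re ≠ Q.re)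
    (o : ok s P Q t) (h : ∃ᶠ ε in 𝓝[>] (0 : ℝ), 0 ≤ lam P Q (pt s τ t ε)) : cnd s τ P Q t := by
  simp only [lam_pt] at h
  refine ev2 h ?_
  rcases o with o | o
  · exact Or.inr (mul_ne_zero hτ (sub_ne_zero.2 (hn o).symm))
  · exact Or.inl o

theorem E_of {s τ t : ℝ} {A B C : ℂ} (hτ : τ ≠ 0) (h : 0 < lam A B C)
    (o : ok s A B t ∧ ok s B C t ∧ ok s C A t)
    (f : ∃ᶠ ε in 𝓝[>] (0 : ℝ), pt s τ t ε ∈ tri A B C) : t ∈ E s τ A B C := by
  simp only [mem_tri h] at f
  refine ⟨cnd_of hτ ?_ o.1 (f.mono fun _ a => a.1), cnd_of hτ ?_ o.2.1 (f.mono fun _ a => a.2.1),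
    cnd_of hτ ?_ o.2.2 (f.mono fun _ a => a.2.2)⟩ <;>
  · intro a b
    simp only [lam, a, b] at h
    linarith

theorem E_meas (s τ : ℝ) (A B C : ℂ) : MeasurableSet (E s τ A B C) := by
  have c : ∀ P Q, MeasurableSet {t | cnd s τ P Q t} := fun P Q => by
    have m : Measurable fun t : ℝ => lam P Q ⟨t, s⟩ := by simp only [lam]; fun_prop
    exact (measurableSet_lt measurable_const m).union
      ((measurableSet_eq_fun m measurable_const).inter (MeasurableSet.const _))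
  exact (c _ _).inter ((c _ _).inter (c _ _))

theorem E_fin {s τ : ℝ} {A B C : ℂ} (h : 0 < lam A B C) : volume (E s τ A B C) ≠ ⊤ := by
  have c : IsCompact (Complex.re '' tri A B C) :=
    ((toFinite _).isCompact_convexHull ℝ).image Complex.continuous_re
  refine ne_top_of_le_ne_top c.measure_lt_top.ne (measure_mono fun t ht => ?_)
  obtain ⟨ε, hε⟩ := (E_ev h ht).exists
  exact ⟨_, interior_subset hε, rfl⟩

structure Til {ι : Type} (A B C : ι → ℂ) (P Q R : ℂ) : Prop where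
  pos : ∀ i, 0 < lam (A i) (B i) (C i)
  pos0 : 0 < lam P Q R
  un : (⋃ i, tri (A i) (B i) (C i)) = tri P Q R
  dj : Pairwise fun i j =>
    Disjoint (interior (tri (A i) (B i) (C i))) (interior (tri (A j) (B j) (C j)))

theorem addE {ι : Type} [Fintype ι] {A B C : ι → ℂ} {P Q R : ℂ} (T : Til A B C P Q R) (s : ℝ)
    {τ : ℝ} (hτ : τ ≠ 0) :
    (volume (E s τ P Q R)).toReal = ∑ i, (volume (E s τ (A i) (B i) (C i))).toReal := by
  rw [← ENNReal.toReal_sum fun i _ => E_fin (T.pos i), ← tsum_fintype (L := SummationFilter.unconditional ι),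
    ← measure_iUnion _ fun i => E_meas _ _ _ _ _]
  · congr 1
    apply measure_congr
    have a : ∀ᵐ t, ∀ i, ok s (A i) (B i) t ∧ ok s (B i) (C i) t ∧ ok s (C i) (A i) t :=
      ae_all_iff.2 fun i => (ae_ok _ _ _).and ((ae_ok _ _ _).and (ae_ok _ _ _))
    filter_upwards [a, ae_ok s P Q, ae_ok s Q R, ae_ok s R P] with t o o1 o2 o3
    apply propext
    constructor
    · intro ht
      have e := E_ev T.pos0 ht
      by_contra hn
      have : ∀ᶠ ε in 𝓝[>] (0 : ℝ), ∀ i, pt s τ t ε ∉ tri (A i) (B i) (C i) := by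
        rw [eventually_all]
        intro i
        by_contra hh
        exact hn (mem_iUnion.2 ⟨i, E_of hτ (T.pos i) (o i) (by simpa using hh)⟩)
      obtain ⟨ε, a, b⟩ := (e.and this).exists
      have := interior_subset a
      rw [← T.un] at this
      obtain ⟨i, hi⟩ := mem_iUnion.1 this
      exact b i hi
    · intro ht
      obtain ⟨i, hi⟩ := mem_iUnion.1 ht
      refine E_of hτ T.pos0 ⟨o1, o2, o3⟩ ((E_ev (T.pos i) hi).frequently.mono fun ε a => ?_)
      rw [← T.un]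
      exact mem_iUnion.2 ⟨i, interior_subset a⟩
  · intro i j hij
    rw [Function.onFun, Set.disjoint_left]
    intro t a b
    obtain ⟨ε, a, b⟩ := ((E_ev (T.pos i) a).and (E_ev (T.pos j) b)).exists
    exact Set.disjoint_left.1 (T.dj hij) a b

noncomputable def eg (s : ℝ) (P Q : ℂ) : ℝ := if P.im = s ∧ Q.im = s then Q.re - P.re else 0
noncomputable def J (s : ℝ) (A B C : ℂ) : ℝ :=
  (volume (E s 1 A B C)).toReal - (volume (E s (-1) A B C)).toReal

theorem J_rot (s : ℝ) (A B C : ℂ) : J s A B C = J s B C A := by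
  have : ∀ τ, E s τ A B C = E s τ B C A := fun τ => by
    ext t; simp only [E, mem_ofPred_eq]; tauto
  simp only [J, this]

theorem J_edge {s : ℝ} {A B C : ℂ} (h : 0 < lam A B C) (a : A.im = s) (b : B.im = s) :
    J s A B C = B.re - A.re := by
  have h' : 0 < (B.re - A.re) * (C.im - s) := by simpa [lam, a, b] using h
  have e : ∀ τ, E s τ A B C =ᵐ[volume] {t | 0 < τ * (B.re - A.re) ∧
      0 < (C.im - s) * (B.re - t) ∧ 0 < (C.im - s) * (t - A.re)} := by
    intro τ
    have n : C.im ≠ s := fun e => by simp [e] at h'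
    filter_upwards [ae_ok s B C, ae_ok s C A] with t o1 o2
    have l1 : lam A B ⟨t, s⟩ = 0 := by simp [lam, a, b]
    have l2 : lam B C ⟨t, s⟩ = (C.im - s) * (B.re - t) := by simp [lam, b]; ring
    have l3 : lam C A ⟨t, s⟩ = (C.im - s) * (t - A.re) := by simp [lam, a]; ring
    apply propext
    change (cnd _ _ _ _ _ ∧ cnd _ _ _ _ _ ∧ cnd _ _ _ _ _) ↔ (_ ∧ _ ∧ _)
    have o1' := o1.resolve_left (fun e => n (by rw [← e, b]))
    have o2' := o2.resolve_left (fun e => n (by rw [e, a]))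
    simp only [cnd, l1, lt_irrefl, false_or, true_and, o1', o2', false_and, or_false]
    rw [l2, l3]
  simp only [J, measure_congr (e _)]
  rcases pos_and_pos_or_neg_and_neg_of_mul_pos h' with ⟨p, q⟩ | ⟨p, q⟩
  · have e1 : {t | 0 < 1 * (B.re - A.re) ∧ 0 < (C.im - s) * (B.re - t) ∧
        0 < (C.im - s) * (t - A.re)} = Ioo A.re B.re := by
      ext t; simp [mul_pos_iff_of_pos_left q, and_comm]; intros; linarith
    have e2 : {t | 0 < -1 * (B.re - A.re) ∧ 0 < (C.im - s) * (B.re - t) ∧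
        0 < (C.im - s) * (t - A.re)} = ∅ := by
      ext t; simp; intros; linarith
    rw [e1, e2]; simp [p.le]
  · have k : ∀ x, 0 < (C.im - s) * x ↔ x < 0 := fun x =>
      ⟨fun h => by nlinarith, fun h => by nlinarith⟩
    have e1 : {t | 0 < -1 * (B.re - A.re) ∧ 0 < (C.im - s) * (B.re - t) ∧
        0 < (C.im - s) * (t - A.re)} = Ioo B.re A.re := by
      ext t; simp [k]; intros; linarith
    have e2 : {t | 0 < 1 * (B.re - A.re) ∧ 0 < (C.im - s) * (B.re - t) ∧
        0 < (C.im - s) * (t - A.re)} = ∅ := by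
      ext t; simp; intros; linarith
    rw [e1, e2]
    have : 0 ≤ A.re - B.re := by linarith
    simp [this]

theorem J_eq {s : ℝ} {A B C : ℂ} (h : 0 < lam A B C) :
    J s A B C = eg s A B + eg s B C + eg s C A := by
  have h2 : 0 < lam B C A := by simp only [lam] at *; linarith
  have h3 : 0 < lam C A B := by simp only [lam] at *; linarith
  have n : ¬ (A.im = s ∧ B.im = s ∧ C.im = s) := by
    rintro ⟨a, b, c⟩; simp [lam, a, b, c] at h
  by_cases a : A.im = s ∧ B.im = s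
  · have c : C.im ≠ s := by tauto
    rw [J_edge h a.1 a.2]; simp [eg, a, c]
  by_cases b : B.im = s ∧ C.im = s
  · have c : A.im ≠ s := by tauto
    rw [J_rot, J_edge h2 b.1 b.2]; simp [eg, b, c]
  by_cases c : C.im = s ∧ A.im = s
  · have d : B.im ≠ s := by tauto
    rw [← J_rot, J_edge h3 c.1 c.2]; simp [eg, c, d]
  have k : ∀ P Q z : ℂ, 0 < lam P Q z → ¬ (P.im = s ∧ Q.im = s) → ∀ t, ok s P Q t →
      ∀ τ, cnd s τ P Q t ↔ 0 < lam P Q ⟨t, s⟩ := by
    intro P Q z hz hn t o τ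
    have : lam P Q ⟨t, s⟩ ≠ 0 := by
      rcases o with o | o
      · have : P.im ≠ s := fun e => hn ⟨e, o ▸ e⟩
        simp only [lam, o, sub_self, zero_mul, sub_zero] at hz ⊢
        refine mul_ne_zero (fun e => by simp [e] at hz) (fun e => this (by linarith))
      · exact o
    simp [cnd, this]
  have e : E s 1 A B C =ᵐ[volume] E s (-1) A B C := by
    filter_upwards [ae_ok s A B, ae_ok s B C, ae_ok s C A] with t o1 o2 o3
    apply propext
    change (cnd _ _ _ _ _ ∧ cnd _ _ _ _ _ ∧ cnd _ _ _ _ _) ↔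
      (cnd _ _ _ _ _ ∧ cnd _ _ _ _ _ ∧ cnd _ _ _ _ _)
    simp only [k _ _ _ h a t o1, k _ _ _ h2 b t o2, k _ _ _ h3 c t o3]
  simp [J, measure_congr e, eg, a, b, c]

theorem L1 {ι : Type} [Fintype ι] {A B C : ι → ℂ} {P Q R : ℂ} (T : Til A B C P Q R) (s : ℝ) :
    eg s P Q + eg s Q R + eg s R P =
      ∑ i, (eg s (A i) (B i) + eg s (B i) (C i) + eg s (C i) (A i)) := by
  rw [← J_eq T.pos0, J, addE T s one_ne_zero, addE T s (by norm_num), ← Finset.sum_sub_distrib]
  exact Finset.sum_congr rfl fun i _ => J_eq (T.pos i)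

end Pool.Agent.H.MP_9dc182_co
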