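import Pool.Agent.H.MP_9dc182_co.A

set_option autoImplicit false

namespace Pool.Agent.H.MP_9dc182_co
open Set Pool.Agent.H.MP_d0305a_co Complex ComplexConjugate

noncomputable def hz (v : ℂ) : ℝ := if v.im = 0 then v.re else 0

theorem sum_eg (F : Finset ℝ) {P : ℂ} (Q : ℂ) (h : P.im ∈ F) : ∑ s ∈ F, eg s P Q = hz (Q - P) := by
  rw [Finset.sum_eq_single_of_mem _ h]
  · simp only [eg, hz, true_and, sub_im, sub_re, sub_eq_zero]
  · intro b _ hb; simp [eg, hb.symm]

variable {ι : Type} [Fintype ι] {A B C : ι → ℂ} {P Q R : ℂ}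

theorem L2 (T : Til A B C P Q R) : hz (Q - P) + hz (R - Q) + hz (P - R) =
    ∑ i, (hz (B i - A i) + hz (C i - B i) + hz (A i - C i)) := by
  classical
  let F : Finset ℝ := (({P, Q, R} : Finset ℂ) ∪ Finset.univ.image A ∪ Finset.univ.image B ∪
    Finset.univ.image C).image im
  have := Finset.sum_congr (rfl : F = F) fun s _ => L1 T s
  rw [Finset.sum_comm] at this
  simp only [Finset.sum_add_distrib (s := F)] at this
  rw [sum_eg, sum_eg, sum_eg] at this
  · rw [this]
    refine Finset.sum_congr rfl fun i _ => ?_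
    rw [sum_eg, sum_eg, sum_eg] <;> exact Finset.mem_image_of_mem _ (by simp)
  all_goals exact Finset.mem_image_of_mem _ (by simp)

omit [Fintype ι] in
theorem Til.mul (T : Til A B C P Q R) {u : ℂ} (hu : u ≠ 0) :
    Til (fun i => u * A i) (fun i => u * B i) (fun i => u * C i) (u * P) (u * Q) (u * R) := by
  have l : ∀ A B C, lam (u * A) (u * B) (u * C) = normSq u * lam A B C := fun A B C => by
    simp [lam, normSq_apply]; ring
  have t : ∀ A B C, tri (u * A) (u * B) (u * C) = Homeomorph.mulLeft₀ u hu '' tri A B C := by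
    intro A B C
    have := (LinearMap.mulLeft ℝ u).image_convexHull {A, B, C}
    rw [image_insert_eq, image_insert_eq, image_singleton] at this
    exact this.symm
  have p := normSq_pos.2 hu
  refine ⟨fun i => by rw [l]; exact mul_pos p (T.pos i), by rw [l]; exact mul_pos p T.pos0, ?_, ?_⟩
  · simp only [t]; rw [← image_iUnion, T.un]
  · intro i j hij
    simp only [t, ← Homeomorph.image_interior]
    exact disjoint_image_of_injective (Homeomorph.injective _) (T.dj hij)

noncomputable def g (f : ℂ → ℝ) (v : ℂ) : ℝ := ‖v‖ * f (v / ‖v‖)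

theorem g_eq (f : ℂ → ℝ) {v d : ℂ} {r : ℝ} (hr : 0 < r) (hd : normSq d = 1) (e : v = r * d) :
    g f v = r * f d := by
  have n : ‖d‖ = 1 := by rw [Complex.norm_def, hd]; simp
  have : ‖v‖ = r := by rw [e]; simp [n, abs_of_pos hr]
  rw [g, this, e, mul_div_cancel_left₀ _ (by exact_mod_cast hr.ne')]

theorem dir {v : ℂ} (hv : v ≠ 0) : normSq (v / ‖v‖) = 1 := by
  have := normSq_pos.2 hv
  rw [normSq_div, normSq_ofReal, ← sq, ← normSq_eq_norm_sq, div_self this.ne']

theorem sumU {f : ℂ → ℝ} (hf : ∀ z, z ≠ 0 → f (-z) = -f z) (U : Finset ℂ)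
    (hU : ∀ u ∈ U, normSq u = 1) {v : ℂ} (hv : v ≠ 0) (h1 : v / ‖v‖ ∈ U) (h2 : -(v / ‖v‖) ∈ U) :
    ∑ u ∈ U, f u * hz (conj u * v) = 2 * g f v := by
  have n : (‖v‖ : ℂ) ≠ 0 := by simpa using hv
  have hd := dir hv
  have ev : v = ‖v‖ * (v / ‖v‖) := by field_simp
  rw [g]
  generalize v / ‖v‖ = d at h1 h2 hd ev ⊢
  have d0 : d ≠ 0 := fun h => by simp [h] at hd
  generalize ‖v‖ = r at n ev ⊢
  subst ev
  have c : conj d * d = 1 := by rw [mul_comm, mul_conj, hd]; simp
  rw [Finset.sum_eq_add_of_mem d (-d) h1 h2 (fun h => d0 (by linear_combination h / 2))]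
  · rw [hf d d0, map_neg (starRingEnd ℂ), neg_mul (conj d), mul_left_comm (conj d), c]
    simp [hz]; ring
  · intro u hu ⟨a, b⟩
    have i : (conj u * (r * d)).im ≠ 0 := by
      intro i
      have r0 : r ≠ 0 := by simpa using n
      have w1 : (conj u * d).im = 0 := by
        rw [mul_left_comm, im_ofReal_mul] at i
        exact (mul_eq_zero.1 i).resolve_left r0
      have w2 : normSq (conj u * d) = 1 := by simp [hU u hu, hd]
      have w3 : u * (conj u * d) = d := by rw [← mul_assoc, mul_conj, hU u hu]; simp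
      generalize conj u * d = w at w1 w2 w3
      rw [normSq_apply, w1] at w2
      have : w.re = 1 ∨ w.re = -1 := mul_self_eq_one_iff.1 (by linarith)
      rcases this with h | h
      · have : w = 1 := Complex.ext h (by simpa)
        exact a (by rw [← w3, this, mul_one])
      · have : w = -1 := Complex.ext (by simpa) (by simpa)
        exact b (by rw [← w3, this]; ring)
    simp only [hz, i, if_false, mul_zero]

noncomputable def Sg (f : ℂ → ℝ) (A B C : ℂ) : ℝ := g f (B - A) + g f (C - B) + g f (A - C)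

theorem ne3 {A B C : ℂ} (h : 0 < lam A B C) : B - A ≠ 0 ∧ C - B ≠ 0 ∧ A - C ≠ 0 := by
  refine ⟨fun e => ?_, fun e => ?_, fun e => ?_⟩ <;>
  · rw [sub_eq_zero] at e
    simp only [lam, e] at h
    linarith

theorem L3 (T : Til A B C P Q R) {f : ℂ → ℝ} (hf : ∀ z, z ≠ 0 → f (-z) = -f z) :
    Sg f P Q R = ∑ i, Sg f (A i) (B i) (C i) := by
  classical
  let W : Finset ℂ := {Q - P, R - Q, P - R} ∪ Finset.univ.image (fun i => B i - A i) ∪
    Finset.univ.image (fun i => C i - B i) ∪ Finset.univ.image (fun i => A i - C i)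
  let U : Finset ℂ := (W.image (fun v : ℂ => v / ‖v‖) ∪ W.image (fun v : ℂ => -(v / ‖v‖))).filter
    (fun u => normSq u = 1)
  have hU : ∀ u ∈ U, normSq u = 1 := fun u hu => (Finset.mem_filter.1 hu).2
  have k : ∀ v ∈ W, v ≠ 0 → ∑ u ∈ U, f u * hz (conj u * v) = 2 * g f v := fun v hv h0 =>
    sumU hf U hU h0
      (Finset.mem_filter.2 ⟨Finset.mem_union_left _ (Finset.mem_image_of_mem _ hv), dir h0⟩)
      (Finset.mem_filter.2 ⟨Finset.mem_union_right _ (Finset.mem_image_of_mem _ hv),
        by rw [normSq_neg, dir h0]⟩)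
  have e : ∀ u ∈ U, f u * hz (conj u * (Q - P)) + f u * hz (conj u * (R - Q)) +
      f u * hz (conj u * (P - R)) = ∑ i, (f u * hz (conj u * (B i - A i)) +
      f u * hz (conj u * (C i - B i)) + f u * hz (conj u * (A i - C i))) := by
    intro u hu
    have := L2 (T.mul (u := conj u) (fun h => by have := hU u hu; simp_all))
    simp only [← mul_sub] at this
    simp only [← mul_add]
    rw [this, Finset.mul_sum]
  have := Finset.sum_congr rfl e
  rw [Finset.sum_comm] at this
  simp only [Finset.sum_add_distrib (s := U)] at this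
  rw [k _ (by simp [W]) (ne3 T.pos0).1, k _ (by simp [W]) (ne3 T.pos0).2.1,
    k _ (by simp [W]) (ne3 T.pos0).2.2,
    Finset.sum_congr rfl (g := fun i => 2 * Sg f (A i) (B i) (C i)), ← Finset.mul_sum] at this
  · simp only [Sg] at *; linarith
  · intro i _
    rw [k _ (by simp [W]) (ne3 (T.pos i)).1, k _ (by simp [W]) (ne3 (T.pos i)).2.1,
      k _ (by simp [W]) (ne3 (T.pos i)).2.2, Sg]
    ring

end Pool.Agent.H.MP_9dc182_co
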