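import Pool.Agent.H.MP_9dc182_co.B

set_option autoImplicit false

namespace Pool.Agent.H.MP_9dc182_co
open Set Pool.Agent.H.MP_d0305a_co Complex ComplexConjugate

noncomputable def ze : ℂ := ⟨-1 / 2, √3 / 2⟩

theorem s3 : √3 * √3 = 3 := Real.mul_self_sqrt (by norm_num)
theorem ze_n : normSq ze = 1 := by simp [ze, normSq_apply]; linear_combination s3 / 4
theorem ze_sq : ze * ze = conj ze := by
  apply Complex.ext <;> simp [ze]
  · linear_combination -s3 / 4
  · ring
theorem ze3 : ze ^ 3 = 1 := by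
  rw [pow_succ, sq, ze_sq, mul_comm, mul_conj, ze_n]; simp

theorem exf {θ : ℂ} (h0 : θ ≠ 0) (hθ : ∀ n : ℕ, 0 < n → θ ^ n ≠ 1) :
    ∃ f : ℂ → ℝ, ∀ z, z ≠ 0 →
      (f z = 1 ∨ f z = -1) ∧ f (-z) = -f z ∧ f (ze * z) = f z ∧ f (θ * z) = f z := by
  classical
  have z0 : ze ≠ 0 := fun h => by have := ze_n; simp [h] at this
  let a : ℂˣ := Units.mk0 ze z0
  let b : ℂˣ := Units.mk0 θ h0
  let H := Subgroup.closure {a, b}
  have a3 : a ^ 3 = 1 := Units.ext ze3
  have hH : (-1 : ℂˣ) ∉ H := by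
    intro h
    obtain ⟨m, n, e⟩ := Subgroup.mem_closure_pair.1 h
    have e3 : b ^ (n * 3) = -1 := by
      have := congrArg (· ^ (3 : ℤ)) e
      simp only [mul_zpow, ← zpow_mul] at this
      rw [mul_comm m, zpow_mul, zpow_ofNat, a3, one_zpow, one_mul, zpow_ofNat] at this
      rw [this]; simp [pow_succ]
    have n0 : n ≠ 0 := by
      rintro rfl
      have := congrArg Units.val e3
      norm_num at this
    have : IsOfFinOrder b := isOfFinOrder_iff_zpow_eq_one.2
      ⟨n * 3 * 2, by omega, by rw [zpow_mul, e3, zpow_ofNat]; simp⟩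
    obtain ⟨k, k0, hk⟩ := isOfFinOrder_iff_pow_eq_one.1 this
    exact hθ k k0 (congrArg Units.val hk)
  let _ : LinearOrder (ℂˣ ⧸ H) := linearOrderOfSTO WellOrderingRel
  let F : ℂˣ → ℝ := fun u => if (u : ℂˣ ⧸ H) < (-u : ℂˣ) then 1 else -1
  have F1 : ∀ u, ∀ h ∈ H, F (u * h) = F u := fun u h hh => by
    simp only [F, ← neg_mul, QuotientGroup.mk_mul_of_mem _ hh]
  have F2 : ∀ u, F (-u) = -F u := fun u => by
    have : (u : ℂˣ ⧸ H) ≠ (-u : ℂˣ) := fun e => hH (by simpa using QuotientGroup.eq.1 e)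
    simp only [F, neg_neg]
    rcases this.lt_or_gt with h | h <;> simp [h, h.not_gt]
  refine ⟨fun z => if h : z = 0 then 0 else F (Units.mk0 z h), fun z hz => ⟨?_, ?_, ?_, ?_⟩⟩
  · simp only [hz, dif_neg, not_false_eq_true, F]; split_ifs <;> simp
  · beta_reduce
    rw [dif_neg hz, dif_neg (neg_ne_zero.2 hz), ← F2]
    congr 1; ext; simp
  · beta_reduce
    rw [dif_neg hz, dif_neg (mul_ne_zero z0 hz),
      ← F1 (Units.mk0 z hz) a (Subgroup.subset_closure (by simp))]
    congr 1; ext; simp [a, mul_comm]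
  · beta_reduce
    rw [dif_neg hz, dif_neg (mul_ne_zero h0 hz),
      ← F1 (Units.mk0 z hz) b (Subgroup.subset_closure (by simp))]
    congr 1; ext; simp [b, mul_comm]

theorem corner {v w : ℂ} {a b : ℝ} (ha : 0 < a) (hb : 0 < b) (h1 : normSq v = b ^ 2)
    (h2 : normSq w = a ^ 2) (h3 : normSq (v - w) = a ^ 2 + b ^ 2 + a * b) :
    ∃ d, normSq d = 1 ∧ v = b * d ∧ (w = a * (ze * d) ∨ w = a * (conj ze * d)) := by
  have a0 : (a : ℂ) ≠ 0 := by exact_mod_cast ha.ne'
  have b0 : (b : ℂ) ≠ 0 := by exact_mod_cast hb.ne'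
  obtain ⟨d, rfl⟩ : ∃ d, v = b * d := ⟨v / b, by field_simp⟩
  have hd : normSq d = 1 := by
    rw [normSq_mul, normSq_ofReal, ← sq] at h1
    exact mul_left_cancel₀ (pow_pos hb 2).ne' (by rw [h1, mul_one])
  have d0 : d ≠ 0 := fun h => by simp [h] at hd
  obtain ⟨r, rfl⟩ : ∃ r, w = a * (r * d) := ⟨w / (a * d), by field_simp⟩
  have hr : normSq r = 1 := by
    rw [normSq_mul, normSq_mul, normSq_ofReal, ← sq, hd, mul_one] at h2
    exact mul_left_cancel₀ (pow_pos ha 2).ne' (by rw [h2, mul_one])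
  refine ⟨d, hd, rfl, ?_⟩
  rw [← mul_assoc, ← sub_mul, normSq_mul, hd, mul_one] at h3
  simp [normSq_apply] at h3 hr
  have re : r.re = -1 / 2 := by
    apply mul_left_cancel₀ (mul_pos ha hb).ne'
    linear_combination -h3 / 2 + a ^ 2 / 2 * hr
  have : r.im = √3 / 2 ∨ r.im = -(√3 / 2) := by
    apply mul_self_eq_mul_self_iff.1
    rw [re] at hr
    linear_combination hr - s3 / 4
  rcases this with h | h
  · left; congr 2; exact Complex.ext re h
  · right; congr 2; exact Complex.ext re h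

theorem dn {z w : ℂ} {r : ℝ} (h : dist z w = r) : normSq (z - w) = r ^ 2 := by
  rw [normSq_eq_norm_sq, ← Complex.dist_eq, h]

theorem tri_sw (A B C : ℂ) : tri A C B = tri A B C := by rw [tri, tri, pair_comm]

section
variable {f : ℂ → ℝ} (f1 : ∀ z, z ≠ 0 → f z = 1 ∨ f z = -1) (f2 : ∀ z, z ≠ 0 → f (-z) = -f z)
  (f3 : ∀ z, z ≠ 0 → f (ze * z) = f z)
include f1 f2 f3

theorem tile {a b c χ : ℝ} {η : ℂ} (ha : 0 < a) (hb : 0 < b) (hc : 0 < c)
    (h : c ^ 2 = a ^ 2 + b ^ 2 + a * b) (e : c * η = a * ze - b) (n : normSq η = 1)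
    (f4 : ∀ z, z ≠ 0 → f (η * z) = χ * f z) (x : χ * χ = 1) {A B C : ℂ}
    (hs : dist B C = a ∧ dist C A = b ∧ dist A B = c) :
    ∃ B' C', tri A B' C' = tri A B C ∧ 0 < lam A B' C' ∧
      (Sg f A B' C' = b - a + χ * c ∨ Sg f A B' C' = -(b - a + χ * c)) := by
  obtain ⟨d, hd, e1, e2⟩ := corner (v := A - C) (w := B - C) ha hb (dn (dist_comm A C ▸ hs.2.1))
    (dn hs.1) (by rw [← h, ← dn hs.2.2]; congr 1; ring)
  clear hs
  have d0 : d ≠ 0 := fun h => by simp [h] at hd
  have z0 : ze ≠ 0 := fun h => by have := ze_n; simp [h] at this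
  have p : 0 < a * b * (√3 / 2) := by positivity
  obtain rfl : A = C + b * d := by rw [← e1]; ring
  have hd' := hd
  rw [normSq_apply] at hd'
  rcases e2 with e2 | e2
  · obtain rfl : B = C + a * (ze * d) := by rw [← e2]; ring
    refine ⟨_, _, rfl, ?_, ?_⟩
    · simp [lam, ze]; linear_combination p - a * b * (√3 / 2) * hd'
    · rw [Sg, g_eq f (d := η * d) hc (by simp [n, hd]) (by linear_combination -d * e),
        g_eq f (d := -(ze * d)) ha (by simp [ze_n, hd]) (by ring),
        g_eq f (d := d) hb hd (by ring), f4 d d0, f2 _ (mul_ne_zero z0 d0), f3 d d0]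
      rcases f1 d d0 with h | h <;> rw [h]
      · left; ring
      · right; ring
  · obtain rfl : B = C + a * (conj ze * d) := by rw [← e2]; ring
    refine ⟨_, _, tri_sw _ _ _, ?_, ?_⟩
    · simp [lam, ze]; linear_combination p - a * b * (√3 / 2) * hd'
    · have e' := congrArg conj e
      simp only [map_mul, map_sub, conj_ofReal] at e'
      have η0 : conj η * d ≠ 0 := mul_ne_zero (fun h => by
        rw [map_eq_zero] at h; simp [h] at n) d0
      have k := f4 _ η0
      rw [← mul_assoc, mul_conj, n, ofReal_one, one_mul] at k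
      have k' : f (conj η * d) = χ * f d := by rw [k, ← mul_assoc, x, one_mul]
      rw [Sg, g_eq f (d := -d) hb (by simp [hd]) (by ring),
        g_eq f (d := conj ze * d) ha (by simp [ze_n, hd]) (by ring),
        g_eq f (d := -(conj η * d)) hc (by simp [n, hd]) (by linear_combination d * e'),
        f2 _ η0, f2 d d0, k', ← ze_sq, mul_assoc, f3 _ (mul_ne_zero z0 d0), f3 d d0]
      rcases f1 d d0 with h | h <;> rw [h]
      · right; ring
      · left; ring

theorem equi {X : ℝ} (hX : 0 < X) {P Q R : ℂ} (h1 : dist P Q = X) (h2 : dist Q R = X)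
    (h3 : dist R P = X) : ∃ Q' R', tri P Q' R' = tri P Q R ∧ 0 < lam P Q' R' ∧
      (Sg f P Q' R' = 3 * X ∨ Sg f P Q' R' = -(3 * X)) := by
  have a1 := dn (dist_comm P Q ▸ h1)
  have a2 := dn (dist_comm Q R ▸ h2)
  have a3 := dn h3
  obtain ⟨d, hd, e1, e2⟩ := corner (v := Q - P) (w := R - Q) hX hX a1 a2
    (by simp [normSq_apply] at a1 a2 a3 ⊢; linear_combination 2 * a1 + 2 * a2 - a3)
  have d0 : d ≠ 0 := fun h => by simp [h] at hd
  have z0 : ze ≠ 0 := fun h => by have := ze_n; simp [h] at this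
  have p : 0 < X * X * (√3 / 2) := by positivity
  have zz : 1 + ze + conj ze = 0 := by apply Complex.ext <;> simp [ze]; ring
  obtain rfl : Q = P + X * d := by rw [← e1]; ring
  have hd' := hd
  rw [normSq_apply] at hd'
  have g2 := f3 d d0
  have g3 : f (conj ze * d) = f d := by rw [← ze_sq, mul_assoc, f3 _ (mul_ne_zero z0 d0), g2]
  rcases e2 with e2 | e2
  · obtain rfl : R = P + X * d + X * (ze * d) := by rw [← e2]; ring
    refine ⟨_, _, rfl, ?_, ?_⟩
    · simp [lam, ze]; linear_combination p - X * X * (√3 / 2) * hd'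
    · rw [Sg, g_eq f (d := d) hX hd (by ring),
        g_eq f (d := ze * d) hX (by simp [ze_n, hd]) (by ring),
        g_eq f (d := conj ze * d) hX (by simp [ze_n, hd]) (by linear_combination -X * d * zz),
        g2, g3]
      rcases f1 d d0 with h | h <;> rw [h]
      · left; ring
      · right; ring
  · obtain rfl : R = P + X * d + X * (conj ze * d) := by rw [← e2]; ring
    refine ⟨_, _, tri_sw _ _ _, ?_, ?_⟩
    · simp [lam, ze]; linear_combination p - X * X * (√3 / 2) * hd'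
    · rw [Sg, g_eq f (d := -(ze * d)) hX (by simp [ze_n, hd]) (by linear_combination X * d * zz),
        g_eq f (d := -(conj ze * d)) hX (by simp [ze_n, hd]) (by ring),
        g_eq f (d := -d) hX (by simp [hd]) (by ring), f2 _ (mul_ne_zero z0 d0),
        f2 _ (mul_ne_zero (by simpa using z0) d0), f2 d d0, g2, g3]
      rcases f1 d d0 with h | h <;> rw [h]
      · right; ring
      · left; ring
end

theorem par {ι : Type} [DecidableEq ι] (s : Finset ι) (S : ι → ℝ) (w : ℝ)
    (h : ∀ i, S i = w ∨ S i = -w) : ∃ k : ℤ, ∑ i ∈ s, S i = (s.card - 2 * k) * w := by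
  induction s using Finset.induction_on with
  | empty => exact ⟨0, by simp⟩
  | insert i s hi ih =>
    obtain ⟨k, hk⟩ := ih
    rw [Finset.sum_insert hi, Finset.card_insert_of_notMem hi, hk]
    rcases h i with e | e <;> rw [e]
    · exact ⟨k, by push_cast; ring⟩
    · exact ⟨k + 1, by push_cast; ring⟩

theorem key {a b c : ℕ} (ha : 0 < a) (hb : 0 < b) (hc : 0 < c) (h : c ^ 2 = a ^ 2 + b ^ 2 + a * b)
    {χ : ℝ} (x : χ = 1 ∨ χ = -1) {X : ℝ} (hX : 0 < X) {T : Set ℂ} (E : Equi X T) {N : ℕ}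
    (t : Tiles a b c T N) : ∃ k : ℤ, 3 * X = (N - 2 * k) * (b - a + χ * c) := by
  have ha' : (0 : ℝ) < a := by exact_mod_cast ha
  have hb' : (0 : ℝ) < b := by exact_mod_cast hb
  have hc' : (0 : ℝ) < c := by exact_mod_cast hc
  have h' : (c : ℝ) ^ 2 = a ^ 2 + b ^ 2 + a * b := by exact_mod_cast h
  have c0 : (c : ℂ) ≠ 0 := by exact_mod_cast hc.ne'
  obtain ⟨η, e⟩ : ∃ η : ℂ, (c : ℝ) * η = (a : ℝ) * ze - (b : ℝ) :=
    ⟨((a : ℝ) * ze - (b : ℝ)) / c, by push_cast; field_simp⟩
  have n : normSq η = 1 := by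
    have := congrArg normSq e
    rw [normSq_mul, normSq_ofReal] at this
    apply mul_left_cancel₀ (mul_pos hc' hc').ne'
    rw [this]; simp [normSq_apply, ze]; linear_combination -h' + a ^ 2 / 4 * s3
  have xx : χ * χ = 1 := by rcases x with rfl | rfl <;> norm_num
  have η0 : η ≠ 0 := fun h => by simp [h] at n
  have x0 : (χ : ℂ) ≠ 0 := by rcases x with rfl | rfl <;> simp
  obtain ⟨f, hf⟩ := exf (mul_ne_zero x0 η0) (by
    intro m m0 hm
    have p : η ^ (2 * m) = 1 := by
      have := congrArg (· ^ 2) hm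
      simp only [← pow_mul, mul_pow, mul_comm m] at this
      rwa [pow_mul, sq, ← ofReal_mul, xx, ofReal_one, one_pow, one_pow, one_mul] at this
    have i1 : IsIntegral ℤ η := IsIntegral.of_pow (n := 2 * m) (by omega) (p ▸ isIntegral_one)
    have i2 : IsIntegral ℤ (conj η) := IsIntegral.of_pow (n := 2 * m) (by omega)
      (by rw [← map_pow, p, map_one]; exact isIntegral_one)
    have r : (c : ℝ) * η.re = -a / 2 - b := by
      have := congrArg re e
      simp [ze] at this; linarith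
    obtain ⟨k, hk⟩ := (i1.add i2).exists_int_iff_exists_rat.1 ⟨-(a + 2 * b) / c, by
      rw [add_conj]
      have : 2 * η.re = -(a + 2 * b) / c := by field_simp; linarith
      rw [this]; push_cast; rfl⟩
    rw [add_conj] at hk
    have hk' : 2 * η.re = k := by exact_mod_cast hk
    have q : (k : ℝ) * c = -(a + 2 * b) := by rw [← hk']; linarith
    have q' : k * c = -(a + 2 * b : ℤ) := by exact_mod_cast q
    have hz : (c : ℤ) ^ 2 = a ^ 2 + b ^ 2 + a * b := by exact_mod_cast h
    have a1 : (0 : ℤ) < a := by exact_mod_cast ha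
    have b1 : (0 : ℤ) < b := by exact_mod_cast hb
    have c1 : (0 : ℤ) < c := by exact_mod_cast hc
    have l1 : (c : ℤ) < a + 2 * b := by nlinarith
    have l2 : (a : ℤ) + 2 * b < 2 * c := by nlinarith
    have k1 : k < -1 := by nlinarith
    have k2 : -2 < k := by nlinarith
    omega)
  have f1 := fun z hz => (hf z hz).1
  have f2 := fun z hz => (hf z hz).2.1
  have f3 := fun z hz => (hf z hz).2.2.1
  have f4 : ∀ z, z ≠ 0 → f (η * z) = χ * f z := by
    intro z hz
    have := (hf z hz).2.2.2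
    rcases x with rfl | rfl
    · simpa using this
    · rw [show ((-1 : ℝ) : ℂ) * η * z = -(η * z) by push_cast; ring,
        f2 _ (mul_ne_zero η0 hz)] at this
      linarith
  obtain ⟨P, Q, R, h1, h2, h3, rfl⟩ := E
  obtain ⟨A, B, C, d, u, dj⟩ := t
  choose B' C' t1 t2 t3 using fun i => tile f1 f2 f3 ha' hb' hc' h' e n f4 xx (d i)
  obtain ⟨Q', R', r1, r2, r3⟩ := equi f1 f2 f3 hX h1 h2 h3
  have T : Til A B' C' P Q' R' := ⟨t2, r2, by simp only [t1, r1, u], by simpa only [t1] using dj⟩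
  have l := L3 T f2
  obtain ⟨k, hk⟩ := par Finset.univ _ _ t3
  rw [hk, Finset.card_univ, Fintype.card_fin] at l
  rcases r3 with r | r <;> rw [r] at l
  · exact ⟨k, l⟩
  · exact ⟨N - k, by push_cast; linarith⟩

end Pool.Agent.H.MP_9dc182_co
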